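import Mathlib

set_option autoImplicit false

/-!
# Project SN: the real periods of the curves 2-isogenous to the twists of `X_0(24)`, real analysis

After `Pool.Agent.N603.SL.OM`.
-/

namespace Pool.Agent.N591.SN

open MeasureTheory Set

/-- substitution -/
lemma subst {s : Set ℝ} (hs : MeasurableSet s) {φ φ' h k : ℝ → ℝ} (hφ : ∀ x ∈ s, HasDerivAt φ (φ' x) x)
    (hinj : InjOn φ s) (hk : ∀ x ∈ s, |φ' x| * h (φ x) = k x) :
    (∫ x in φ '' s, h x) = (∫ x in s, k x) ∧ (IntegrableOn h (φ '' s) ↔ IntegrableOn k s) := by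
  have h1 : ∀ x ∈ s, HasDerivWithinAt φ (φ' x) s x := fun x hx => (hφ x hx).hasDerivWithinAt
  refine ⟨?_, ?_⟩
  · rw [integral_image_eq_integral_abs_deriv_smul hs h1 hinj]
    exact setIntegral_congr_fun hs fun x hx => by simpa using hk x hx
  · rw [integrableOn_image_iff_integrableOn_abs_deriv_smul hs h1 hinj]
    exact integrableOn_congr_fun (fun x hx => by simpa using hk x hx) hs

/-- two parts with the same integral -/
lemma twice {A B : Set ℝ} (hB : MeasurableSet B) (hAB : Disjoint A B) {h : ℝ → ℝ}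
    (h1 : ∫ x in A, h x = ∫ x in B, h x) (h2 : IntegrableOn h A ↔ IntegrableOn h B) :
    ∫ x in A ∪ B, h x = 2 * ∫ x in B, h x := by
  by_cases hi : IntegrableOn h B
  · rw [setIntegral_union hAB hB (h2.mpr hi) hi, h1, two_mul]
  · have h3 : ¬ IntegrableOn h (A ∪ B) := fun h4 => hi (h4.mono_set subset_union_right)
    rw [integral_undef h3, integral_undef hi, mul_zero]

/-- an inversion `x ↦ e / x` -/
lemma inversion {s t : Set ℝ} (hs : MeasurableSet s) (e : ℝ) (he : e ≠ 0) (h0 : ∀ x ∈ s, x ≠ 0)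
    (hmap : ∀ x ∈ s, e / x ∈ t) (hmap' : ∀ x ∈ t, x ≠ 0 ∧ e / x ∈ s) {p : ℝ → ℝ}
    (hp : ∀ x ∈ s, 0 < p x ∧ p (e / x) = (e / x ^ 2) ^ 2 * p x) :
    (∫ x in t, 1 / √(p x)) = (∫ x in s, 1 / √(p x)) ∧
      (IntegrableOn (fun x => 1 / √(p x)) t ↔ IntegrableOn (fun x => 1 / √(p x)) s) := by
  have himg : (fun x => e / x) '' s = t := by
    ext y
    constructor
    · rintro ⟨x, hx, rfl⟩
      exact hmap x hx
    · intro hy
      obtain ⟨hy0, hy1⟩ := hmap' y hy
      refine ⟨e / y, hy1, ?_⟩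
      show e / (e / y) = y
      field_simp
  have key := subst (s := s) hs (φ := fun x => e / x)
    (φ' := fun x => -(e / x ^ 2)) (h := fun x => 1 / √(p x))
    (k := fun x => 1 / √(p x)) (by
      intro x hx
      have hx0 : x ≠ 0 := h0 x hx
      have h2 : HasDerivAt (fun x : ℝ => e * x⁻¹) (e * (-(x ^ 2)⁻¹)) x :=
        (hasDerivAt_inv hx0).const_mul _
      have e1 : (fun x : ℝ => e / x) = fun x : ℝ => e * x⁻¹ := by
        funext z; rw [div_eq_mul_inv]
      rw [e1]
      convert h2 using 1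
      rw [div_eq_mul_inv]; ring) (by
      intro x hx y hy hxy
      have hx0 := h0 x hx
      have hy0 := h0 y hy
      simp only at hxy
      field_simp at hxy
      exact hxy.symm) (by
      intro x hx
      have hx0 := h0 x hx
      obtain ⟨hp1, hp2⟩ := hp x hx
      have hs : 0 < √(p x) := Real.sqrt_pos.mpr hp1
      have hne : |e / x ^ 2| ≠ 0 := by
        rw [abs_ne_zero]
        positivity
      rw [abs_neg, hp2, Real.sqrt_mul (sq_nonneg _), Real.sqrt_sq_eq_abs]
      field_simp)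
  rwa [himg] at key

/-- the cubic of `WA` -/
def pA (d x : ℝ) : ℝ := 4 * x ^ 3 - 8 * d * x ^ 2 - 12 * d ^ 2 * x

/-- the cubic of `WB` -/
def pB (d x : ℝ) : ℝ := 4 * x ^ 3 + 4 * d * x ^ 2 + 4 * d ^ 2 * x

/-- the cubic of `WC` -/
def pC (d x : ℝ) : ℝ := 4 * x ^ 3 - 56 * d * x ^ 2 + 4 * d ^ 2 * x

/-- the translated cubic of `WA` -/
def qA (d x : ℝ) : ℝ := 4 * x ^ 3 + 28 * d * x ^ 2 + 48 * d ^ 2 * x

lemma pA_eq (d x : ℝ) : pA d x = 4 * (x * ((x + d) * (x - 3 * d))) := by unfold pA; ring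

lemma pA_pos_iff {d : ℝ} (hd : 0 < d) (x : ℝ) : 0 < pA d x ↔ x ∈ Ioo (-d) 0 ∪ Ioi (3 * d) := by
  rw [pA_eq, mem_union, mem_Ioo, mem_Ioi]
  constructor
  · intro h
    have h' : 0 < x * ((x + d) * (x - 3 * d)) := by linarith
    rcases lt_trichotomy x 0 with hx | hx | hx
    · left
      refine ⟨?_, hx⟩
      by_contra hc
      push Not at hc
      have h3 : 0 ≤ (x + d) * (x - 3 * d) := mul_nonneg_of_nonpos_of_nonpos (by linarith) (by linarith)
      nlinarith
    · rw [hx] at h'; simp at h'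
    · right
      by_contra hc
      push Not at hc
      have h3 : (x + d) * (x - 3 * d) ≤ 0 := mul_nonpos_of_nonneg_of_nonpos (by linarith) (by linarith)
      nlinarith
  · rintro (⟨h3, h4⟩ | h3)
    · have h5 : (x + d) * (x - 3 * d) < 0 := mul_neg_of_pos_of_neg (by linarith) (by linarith)
      exact mul_pos (by norm_num) (mul_pos_of_neg_of_neg h4 h5)
    · exact mul_pos (by norm_num) (mul_pos (by linarith) (mul_pos (by linarith) (by linarith)))

lemma pB_pos_iff {d : ℝ} (hd : 0 < d) (x : ℝ) : 0 < pB d x ↔ x ∈ Ioi (0:ℝ) := by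
  have h1 : pB d x = x * (4 * (x ^ 2 + d * x + d ^ 2)) := by unfold pB; ring
  have h2 : 0 < 4 * (x ^ 2 + d * x + d ^ 2) := by nlinarith [sq_nonneg (x + d / 2), sq_pos_of_pos hd]
  rw [h1, mem_Ioi]
  constructor
  · intro h; exact (mul_pos_iff_of_pos_right h2).mp h
  · intro h; exact mul_pos h h2

/-- the two components of `WA` -/
lemma half_A {d : ℝ} (hd : 0 < d) : ∫ x in {x : ℝ | 0 < pA d x}, 1 / √(pA d x) =
    2 * ∫ x in Ioi (3 * d), 1 / √(pA d x) := by
  have hset : {x : ℝ | 0 < pA d x} = Ioo (-d) 0 ∪ Ioi (3 * d) := by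
    ext x; exact pA_pos_iff hd x
  obtain ⟨h1, h2⟩ := inversion (s := Ioi (3 * d)) (t := Ioo (-d) 0) measurableSet_Ioi (-(3 * d ^ 2))
    (by have : 0 < 3 * d ^ 2 := by positivity
        linarith)
    (fun x hx => by
      have hx' : 3 * d < x := hx
      linarith)
    (fun x hx => by
      have hx' : 3 * d < x := hx
      have hx0 : 0 < x := by linarith
      rw [neg_div]
      have hp : 0 < 3 * d ^ 2 / x := by positivity
      refine ⟨?_, by linarith⟩
      rw [neg_lt_neg_iff, div_lt_iff₀ hx0]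
      nlinarith)
    (fun x hx => by
      obtain ⟨h1, h2⟩ := hx
      refine ⟨h2.ne, ?_⟩
      show 3 * d < -(3 * d ^ 2) / x
      rw [lt_div_iff_of_neg h2]
      nlinarith)
    (p := pA d)
    (fun x hx => by
      have hx' : 3 * d < x := hx
      have hx0 : x ≠ 0 := by linarith
      refine ⟨(pA_pos_iff hd x).2 (Or.inr hx), ?_⟩
      unfold pA
      field_simp
      ring)
  rw [hset]
  refine twice measurableSet_Ioi ?_ h1 h2
  rw [Set.disjoint_left]
  intro x hx hx2
  have h4 : 3 * d < x := hx2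
  have h5 := hx.2
  linarith

/-- the isogeny to `WB` -/
lemma isoB {d : ℝ} (hd : 0 < d) : ∫ x in {x : ℝ | 0 < pB d x}, 1 / √(pB d x) =
    2 * ∫ x in Ioi (3 * d), 1 / √(pA d x) := by
  have hset : {x : ℝ | 0 < pB d x} = Ioi 0 := by
    ext x; exact pB_pos_iff hd x
  obtain ⟨φ, hφ⟩ : ∃ φ : ℝ → ℝ, φ = fun x => (x - 2 * d - 3 * d ^ 2 / x) / 4 := ⟨_, rfl⟩
  have hinj : InjOn φ (Ioi (3 * d)) := by
    intro x hx y hy hxy
    have hx' : 3 * d < x := hx
    have hy' : 3 * d < y := hy
    have hx0 : 0 < x := by linarith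
    have hy0 : 0 < y := by linarith
    rw [hφ] at hxy
    simp only at hxy
    have h1 : (x - y) * (x * y + 3 * d ^ 2) = 0 := by
      field_simp at hxy
      linear_combination hxy
    have h2 : x * y + 3 * d ^ 2 ≠ 0 := by positivity
    rcases mul_eq_zero.mp h1 with h3 | h3
    · linarith
    · exact absurd h3 h2
  have himg : φ '' Ioi (3 * d) = Ioi 0 := by
    ext y
    constructor
    · rintro ⟨x, hx, rfl⟩
      have hx' : 3 * d < x := hx
      have hx0 : 0 < x := by linarith
      rw [hφ, mem_Ioi]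
      have h1 : (x - 2 * d - 3 * d ^ 2 / x) / 4 = (x + d) * (x - 3 * d) / (4 * x) := by
        field_simp; ring
      simp only
      rw [h1]
      have h2 : 0 < x - 3 * d := by linarith
      positivity
    · intro hy
      rw [mem_Ioi] at hy
      obtain ⟨r, hr⟩ : ∃ r, r = √((d + 2 * y) ^ 2 + 3 * d ^ 2) := ⟨_, rfl⟩
      have hr2 : r ^ 2 = (d + 2 * y) ^ 2 + 3 * d ^ 2 := by
        rw [hr]; exact Real.sq_sqrt (by positivity)
      have hr0 : 0 ≤ r := by rw [hr]; exact Real.sqrt_nonneg _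
      have hr1 : 2 * d < r := by
        nlinarith
      have hx0 : 0 < d + 2 * y + r := by linarith
      refine ⟨d + 2 * y + r, ?_, ?_⟩
      · show 3 * d < _
        linarith
      · rw [hφ]
        simp only
        field_simp
        nlinarith
  have h1 := (subst (s := Ioi (3 * d)) measurableSet_Ioi (φ := φ)
    (φ' := fun x => (1 + 3 * d ^ 2 / x ^ 2) / 4)
    (h := fun x => 1 / √(pB d x)) (k := fun x => 2 * (1 / √(pA d x))) (by
      intro x hx
      have hx' : 3 * d < x := hx
      have hx0 : x ≠ 0 := by linarith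
      have h2 : HasDerivAt (fun x : ℝ => (x - 2 * d - 3 * d ^ 2 * x⁻¹) / 4)
          ((1 - 3 * d ^ 2 * (-(x ^ 2)⁻¹)) / 4) x :=
        ((((hasDerivAt_id x).sub_const _)).sub ((hasDerivAt_inv hx0).const_mul _)).div_const 4
      have e1 : φ = fun x : ℝ => (x - 2 * d - 3 * d ^ 2 * x⁻¹) / 4 := by
        rw [hφ]; funext z; rw [div_eq_mul_inv (3 * d ^ 2) z]
      rw [e1]
      convert h2 using 1
      rw [div_eq_mul_inv (3 * d ^ 2)]; ring) hinj (by
      intro x hx
      have hx' : 3 * d < x := hx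
      have hx0 : 0 < x := by linarith
      have hp : 0 < pA d x := (pA_pos_iff hd x).2 (Or.inr hx)
      have hs : 0 < √(pA d x) := Real.sqrt_pos.mpr hp
      have hw : 0 < (x ^ 2 + 3 * d ^ 2) / (8 * x ^ 2) := by positivity
      have e1 : pB d (φ x) = ((x ^ 2 + 3 * d ^ 2) / (8 * x ^ 2)) ^ 2 * pA d x := by
        rw [hφ]
        unfold pB pA
        field_simp
        ring
      have e2 : 0 < (1 + 3 * d ^ 2 / x ^ 2) / 4 := by positivity
      rw [e1, Real.sqrt_mul (sq_nonneg _), Real.sqrt_sq hw.le, abs_of_pos e2]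
      field_simp
      ring)).1
  rw [himg] at h1
  rw [hset, h1, integral_const_mul]

/-! ### the isogeny to `WC` -/

/-- the middle -/
noncomputable def cc (d : ℝ) : ℝ := 2 * √3 * d

lemma s3 : √3 ^ 2 = (3 : ℝ) := Real.sq_sqrt (by norm_num)

lemma cc_pos {d : ℝ} (hd : 0 < d) : 0 < cc d := by
  unfold cc; positivity

lemma cc_sq (d : ℝ) : cc d ^ 2 = 12 * d ^ 2 := by
  unfold cc
  have := s3
  calc (2 * √3 * d) ^ 2 = 4 * (√3 ^ 2) * d ^ 2 := by ring
    _ = _ := by rw [this]; ring

lemma cc_lt {d : ℝ} (hd : 0 < d) : 2 * cc d < 7 * d := by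
  have h1 := cc_sq d
  have h2 := cc_pos hd
  nlinarith

/-- the largest root -/
noncomputable def ep (d : ℝ) : ℝ := 7 * d + 2 * cc d

/-- the smaller root -/
noncomputable def em (d : ℝ) : ℝ := 7 * d - 2 * cc d

lemma em_pos {d : ℝ} (hd : 0 < d) : 0 < em d := by
  have := cc_lt hd
  unfold em; linarith

lemma em_lt_ep {d : ℝ} (hd : 0 < d) : em d < ep d := by
  have := cc_pos hd
  unfold em ep; linarith

lemma ep_em (d : ℝ) : ep d * em d = d ^ 2 := by
  unfold ep em
  have := cc_sq d
  linear_combination (-4) * this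

lemma pC_eq (d x : ℝ) : pC d x = 4 * (x * ((x - ep d) * (x - em d))) := by
  have h1 : (x - ep d) * (x - em d) = x ^ 2 - 14 * d * x + d ^ 2 := by
    have h2 := ep_em d
    have h3 : ep d + em d = 14 * d := by unfold ep em; ring
    linear_combination h2 - x * h3
  rw [h1]; unfold pC; ring

lemma pC_pos_iff {d : ℝ} (hd : 0 < d) (x : ℝ) : 0 < pC d x ↔ x ∈ Ioo 0 (em d) ∪ Ioi (ep d) := by
  have h1 := em_pos hd
  have h2 := em_lt_ep hd
  rw [pC_eq, mem_union, mem_Ioo, mem_Ioi]
  constructor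
  · intro h
    have h' : 0 < x * ((x - ep d) * (x - em d)) := by linarith
    rcases lt_trichotomy x 0 with hx | hx | hx
    · exfalso
      have h3 : 0 < (x - ep d) * (x - em d) := mul_pos_of_neg_of_neg (by linarith) (by linarith)
      nlinarith
    · rw [hx] at h'; simp at h'
    · by_contra hc
      push Not at hc
      obtain ⟨h4, h5⟩ := hc
      have h6 := h4 hx
      have h3 : (x - ep d) * (x - em d) ≤ 0 := mul_nonpos_of_nonpos_of_nonneg (by linarith) (by linarith)
      nlinarith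
  · rintro (⟨h3, h4⟩ | h3)
    · have h5 : 0 < (x - ep d) * (x - em d) := mul_pos_of_neg_of_neg (by linarith) (by linarith)
      exact mul_pos (by norm_num) (mul_pos h3 h5)
    · exact mul_pos (by norm_num) (mul_pos (by linarith) (mul_pos (by linarith) (by linarith)))

/-- the two components of `WC` -/
lemma half_C {d : ℝ} (hd : 0 < d) : ∫ x in {x : ℝ | 0 < pC d x}, 1 / √(pC d x) =
    2 * ∫ x in Ioi (ep d), 1 / √(pC d x) := by
  have hp1 := em_pos hd
  have hp2 := em_lt_ep hd
  have hpe := ep_em d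
  have hset : {x : ℝ | 0 < pC d x} = Ioo 0 (em d) ∪ Ioi (ep d) := by
    ext x; exact pC_pos_iff hd x
  obtain ⟨h1, h2⟩ := inversion (s := Ioi (ep d)) (t := Ioo 0 (em d)) measurableSet_Ioi (d ^ 2)
    (by positivity)
    (fun x hx => by
      have hx' : ep d < x := hx
      linarith)
    (fun x hx => by
      have hx' : ep d < x := hx
      have hx0 : 0 < x := by linarith
      refine ⟨by positivity, ?_⟩
      rw [div_lt_iff₀ hx0]
      nlinarith)
    (fun x hx => by
      obtain ⟨h1, h2⟩ := hx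
      refine ⟨h1.ne', ?_⟩
      show ep d < d ^ 2 / x
      rw [lt_div_iff₀ h1]
      nlinarith)
    (p := pC d)
    (fun x hx => by
      have hx' : ep d < x := hx
      have hx0 : x ≠ 0 := by linarith
      refine ⟨(pC_pos_iff hd x).2 (Or.inr hx), ?_⟩
      unfold pC
      field_simp
      ring)
  rw [hset]
  refine twice measurableSet_Ioi ?_ h1 h2
  rw [Set.disjoint_left]
  intro x hx hx2
  have h4 : ep d < x := hx2
  have h5 := hx.2
  linarith

lemma qA_pos {d x : ℝ} (hd : 0 < d) (hx : 0 < x) : 0 < qA d x := by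
  unfold qA; positivity

/-- the two halves of the unbounded component of `WA` -/
lemma half_q {d : ℝ} (hd : 0 < d) : ∫ x in Ioi (0:ℝ), 1 / √(qA d x) =
    2 * ∫ x in Ioi (cc d), 1 / √(qA d x) := by
  have hc := cc_pos hd
  have hcs := cc_sq d
  obtain ⟨h1, h2⟩ := inversion (s := Ioi (cc d)) (t := Ioo 0 (cc d)) measurableSet_Ioi (12 * d ^ 2)
    (by positivity)
    (fun x hx => by
      have hx' : cc d < x := hx
      linarith)
    (fun x hx => by
      have hx' : cc d < x := hx
      have hx0 : 0 < x := by linarith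
      refine ⟨by positivity, ?_⟩
      rw [div_lt_iff₀ hx0]
      nlinarith)
    (fun x hx => by
      obtain ⟨h1, h2⟩ := hx
      refine ⟨h1.ne', ?_⟩
      show cc d < 12 * d ^ 2 / x
      rw [lt_div_iff₀ h1]
      nlinarith)
    (p := qA d)
    (fun x hx => by
      have hx' : cc d < x := hx
      have hx0 : x ≠ 0 := by linarith
      refine ⟨qA_pos hd (by linarith), ?_⟩
      unfold qA
      field_simp
      ring)
  have h3 : Ioi (0:ℝ) = Ioc 0 (cc d) ∪ Ioi (cc d) := (Ioc_union_Ioi_eq_Ioi hc.le).symm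
  rw [h3]
  refine twice measurableSet_Ioi ?_ ?_ ?_
  · rw [Set.disjoint_left]
    intro x hx hx2
    exact absurd hx.2 (not_le.mpr hx2)
  · rw [integral_Ioc_eq_integral_Ioo]; exact h1
  · rw [integrableOn_Ioc_iff_integrableOn_Ioo]; exact h2

/-- the Landen transformation -/
noncomputable def ch (d x : ℝ) : ℝ := x + 7 * d + 12 * d ^ 2 / x

lemma qA_ch {d x : ℝ} (hx : x ≠ 0) : qA d x = x ^ 2 * (4 * ch d x) := by
  unfold qA ch; field_simp; ring

lemma pC_ch {d x : ℝ} (hx : x ≠ 0) : pC d (ch d x) = 4 * ch d x * (x - 12 * d ^ 2 / x) ^ 2 := by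
  unfold pC ch; field_simp; ring

lemma ch_pos {d x : ℝ} (hd : 0 < d) (hx : 0 < x) : 0 < ch d x := by unfold ch; positivity

/-- Landen -/
lemma landen {d : ℝ} (hd : 0 < d) : ∫ x in Ioi (ep d), 1 / √(pC d x) = ∫ x in Ioi (cc d), 1 / √(qA d x) := by
  have hc := cc_pos hd
  have hcs := cc_sq d
  have hinj : InjOn (ch d) (Ioi (cc d)) := by
    intro x hx y hy hxy
    rw [mem_Ioi] at hx hy
    have hx0 : 0 < x := hc.trans hx
    have hy0 : 0 < y := hc.trans hy
    unfold ch at hxy
    by_contra hne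
    have h1 : (x - y) * (x * y - 12 * d ^ 2) = 0 := by
      field_simp at hxy
      linear_combination hxy
    have h2 : x * y - 12 * d ^ 2 ≠ 0 := by
      rw [← hcs]
      have : cc d ^ 2 < x * y := by nlinarith
      linarith
    rcases mul_eq_zero.mp h1 with h3 | h3
    · exact hne (by linarith)
    · exact h2 h3
  have himg : ch d '' Ioi (cc d) = Ioi (ep d) := by
    ext y
    constructor
    · rintro ⟨x, hx, rfl⟩
      rw [mem_Ioi] at hx ⊢
      have hx0 : 0 < x := hc.trans hx
      have h1 : ch d x - ep d = (x - cc d) ^ 2 / x := by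
        unfold ch ep; rw [← hcs]; field_simp; ring
      have h2 : 0 < (x - cc d) ^ 2 / x := by
        have : 0 < x - cc d := by linarith
        positivity
      linarith
    · intro hy
      rw [mem_Ioi] at hy
      have hcont : ContinuousOn (ch d) (Ici (cc d)) := by
        unfold ch
        refine ContinuousOn.add (by fun_prop) (ContinuousOn.div continuousOn_const continuousOn_id fun x hx => ?_)
        have : cc d ≤ x := hx
        exact (hc.trans_le this).ne'
      have h1 : ch d (cc d) = ep d := by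
        unfold ch ep; rw [← hcs]; field_simp; ring
      have h2 : cc d ≤ max (cc d) y := le_max_left _ _
      have hM0 : 0 < max (cc d) y := hc.trans_le h2
      have h4 : y ≤ ch d (max (cc d) y) := by
        unfold ch
        have : 0 ≤ 12 * d ^ 2 / max (cc d) y := by positivity
        have := le_max_right (cc d) y
        linarith
      obtain ⟨x, hx, hxy⟩ := intermediate_value_Icc h2 (hcont.mono Icc_subset_Ici_self) ⟨by rw [h1]; exact hy.le, h4⟩
      refine ⟨x, ?_, hxy⟩
      rw [mem_Ioi]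
      refine lt_of_le_of_ne hx.1 ?_
      rintro rfl
      rw [h1] at hxy
      linarith
  have h1 := (subst (s := Ioi (cc d)) measurableSet_Ioi (φ := ch d) (φ' := fun x => 1 - 12 * d ^ 2 / x ^ 2)
    (h := fun x => 1 / √(pC d x)) (k := fun x => 1 / √(qA d x)) (by
      intro x hx
      have hx0 : x ≠ 0 := (hc.trans hx).ne'
      have h2 : HasDerivAt (fun x : ℝ => x + 7 * d + 12 * d ^ 2 * x⁻¹) (1 + 12 * d ^ 2 * (-(x ^ 2)⁻¹)) x :=
        ((hasDerivAt_id x).add_const _).add ((hasDerivAt_inv hx0).const_mul _)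
      have e1 : ch d = fun x : ℝ => x + 7 * d + 12 * d ^ 2 * x⁻¹ := by
        funext z; unfold ch; rw [div_eq_mul_inv]
      rw [e1]
      convert h2 using 1
      rw [div_eq_mul_inv]; ring) hinj (by
      intro x hx
      have hx' : cc d < x := hx
      have hx0 : 0 < x := hc.trans hx
      have hch : 0 < 4 * ch d x := by have := ch_pos hd hx0; positivity
      have h3 : 0 < x - 12 * d ^ 2 / x := by
        rw [sub_pos, div_lt_iff₀ hx0, ← hcs]; nlinarith
      have e1 : (1 - 12 * d ^ 2 / x ^ 2) = (x - 12 * d ^ 2 / x) / x := by field_simp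
      have hs : 0 < √(4 * ch d x) := Real.sqrt_pos.mpr hch
      rw [e1, abs_of_pos (by positivity), pC_ch hx0.ne', qA_ch hx0.ne']
      generalize 4 * ch d x = v at hch hs ⊢
      rw [Real.sqrt_mul hch.le, Real.sqrt_sq h3.le, Real.sqrt_mul (sq_nonneg x), Real.sqrt_sq hx0.le]
      generalize x - 12 * d ^ 2 / x = w at h3
      field_simp)).1
  rw [himg] at h1
  exact h1

/-- translation -/
lemma trans {d : ℝ} : ∫ x in Ioi (3 * d), 1 / √(pA d x) = ∫ x in Ioi (0:ℝ), 1 / √(qA d x) := by
  have himg : (fun x : ℝ => x + 3 * d) '' Ioi 0 = Ioi (3 * d) := by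
    ext y
    constructor
    · rintro ⟨x, hx, rfl⟩
      have hx' : 0 < x := hx
      show 3 * d < x + 3 * d
      linarith
    · intro hy
      have hy' : 3 * d < y := hy
      exact ⟨y - 3 * d, by show 0 < y - 3 * d; linarith, by ring⟩
  have h1 := (subst (s := Ioi (0:ℝ)) measurableSet_Ioi (φ := fun x => x + 3 * d) (φ' := fun _ => 1)
    (h := fun x => 1 / √(pA d x)) (k := fun x => 1 / √(qA d x)) (by
      intro x _
      exact (hasDerivAt_id x).add_const _) (by
      intro x _ y _ hxy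
      simp only at hxy
      linarith) (by
      intro x _
      have e1 : pA d (x + 3 * d) = qA d x := by unfold pA qA; ring
      rw [e1, abs_one, one_mul])).1
  rw [himg] at h1
  exact h1

theorem periodB {d : ℝ} (hd : 0 < d) : ∫ x in {x : ℝ | 0 < pB d x}, 1 / √(pB d x) =
    ∫ x in {x : ℝ | 0 < pA d x}, 1 / √(pA d x) := by
  rw [isoB hd, half_A hd]

theorem periodC {d : ℝ} (hd : 0 < d) : 2 * ∫ x in {x : ℝ | 0 < pC d x}, 1 / √(pC d x) =
    ∫ x in {x : ℝ | 0 < pA d x}, 1 / √(pA d x) := by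
  rw [half_C hd, half_A hd, trans, half_q hd, landen hd]

end Pool.Agent.N591.SN
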