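import Pool.Agent.N818.SN.Stm
import Pool.Agent.N591.SN.Core

set_option autoImplicit false

/-!
# Project SN: the real periods of the curves 2-isogenous to the twists of `X_0(24)`
-/

namespace Pool.Agent.N591.SN

open MeasureTheory Set
open Pool.Agent.N818.SN

lemma cubicA (n : ℕ) (x : ℝ) : cubic (WA n) x = pA n x := by
  unfold cubic WA pA WeierstrassCurve.b₂ WeierstrassCurve.b₄ WeierstrassCurve.b₆
  push_cast
  ring

lemma cubicB (n : ℕ) (x : ℝ) : cubic (WB n) x = pB n x := by
  unfold cubic WB pB WeierstrassCurve.b₂ WeierstrassCurve.b₄ WeierstrassCurve.b₆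
  push_cast
  ring

lemma cubicC (n : ℕ) (x : ℝ) : cubic (WC n) x = pC n x := by
  unfold cubic WC pC WeierstrassCurve.b₂ WeierstrassCurve.b₄ WeierstrassCurve.b₆
  push_cast
  ring

/-- SN-OB -/
theorem t_OB : Pool.Agent.N818.SN.S_OB := by
  intro n hn
  have hd : (0:ℝ) < n := by exact_mod_cast hn
  unfold Omega
  simp only [cubicA, cubicB]
  rw [periodB hd]

/-- SN-OC -/
theorem t_OC : Pool.Agent.N818.SN.S_OC := by
  intro n hn
  have hd : (0:ℝ) < n := by exact_mod_cast hn
  unfold Omega
  simp only [cubicA, cubicC]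
  rw [← periodC hd]

end Pool.Agent.N591.SN
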